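import Mathlib
import Pool.Agent.H391R3.E8

set_option autoImplicit false

open AlgebraicGeometry

universe u

namespace Pool.Agent.Results.MP_5ec99c_ag.InfinitelyMany

open Pool.Agent.Helper226 Pool.Agent.H391R3

/-- A subset `Z` of the Hilbert scheme of `r` points of `Spec B` is elementary if a general `k`-point
of `Z` is a subscheme supported at a single point: there is an open set `U` meeting `Z` such that
the radical of the ideal of every `k`-point in `Z ∩ U` is a maximal ideal. -/
def IsElementary {k : Type u} [Field k] {B : Type u} [CommRing B] [Algebra k B] {r : ℕ}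
    (𝓗 : HilbertScheme k B r) (Z : Set 𝓗.H) : Prop :=
  ∃ U : Set 𝓗.H, IsOpen U ∧ (Z ∩ U).Nonempty ∧
    ∀ f : PointsOver k 𝓗.H 𝓗.s k, Set.range f.1 ⊆ Z ∩ U → (𝓗.idealOf f).radical.IsMaximal

lemma exists_elementary (k : Type u) [Field k] (n : ℕ) (hn : 3 ≤ n) (N R : ℕ) :
    ∃ r : ℕ, R < r ∧ ∃ Z ∈ irreducibleComponents (hilb k (MvPolynomial (Fin n) k) r).H,
      IsElementary (hilb k (MvPolynomial (Fin n) k) r) Z ∧
      ((N * r : ℕ) : WithBot ℕ∞) < topologicalKrullDim Z := by
  classical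
  -- a constant which is larger than all ranks for small lengths
  choose bd hbd using fun d : ℕ => exists_bound k (MvPolynomial (Fin n) k) d
  let C : ℕ := N + ∑ d ∈ Finset.range (R + 1), bd d
  have hex : ∃ d : ℕ, ∃ (K : Type u) (_ : Field K) (_ : Algebra k K)
      (b : Fin d → MvPolynomial (Fin n) k) (c : Chart k b K), ((C * d : ℕ) : ℕ∞) < rk c :=
    exists_large k n hn C
  let d := Nat.find hex
  obtain ⟨K, _, _, b, c, hc⟩ := Nat.find_spec hex
  have hmin : ∀ d' < d, ∀ (K : Type u) [Field K] [Algebra k K]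
      (b : Fin d' → MvPolynomial (Fin n) k) (c : Chart k b K), rk c ≤ ((C * d' : ℕ) : ℕ∞) := by
    intro d' hd' K _ _ b c
    by_contra hlt
    exact Nat.find_min hex hd' ⟨K, _, _, b, c, not_le.1 hlt⟩
  obtain ⟨Z, hZ, hpts, hdim⟩ := exists_component C d hmin c hc
  have hNd : N * d ≤ C * d := Nat.mul_le_mul_right _ (Nat.le_add_right _ _)
  refine ⟨d, ?_, Z, hZ, ?_, ?_⟩
  · by_contra hle
    have hdR : d ≤ R := not_lt.1 hle
    have h1 : bd d ≤ C := by
      have := Finset.single_le_sum (f := bd) (s := Finset.range (R + 1)) (fun _ _ => Nat.zero_le _)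
        (Finset.mem_range.2 (Nat.lt_succ_of_le hdR))
      exact this.trans (Nat.le_add_left _ _)
    have h2 : rk c ≤ bd d := hbd d K b c
    have h3 : ((C * d : ℕ) : ℕ∞) < bd d := lt_of_lt_of_le hc h2
    have h4 : C * d < bd d := by exact_mod_cast h3
    have hpos : 1 ≤ d := one_le_of_lt_rk c hc
    have : C ≤ C * d := Nat.le_mul_of_pos_right _ hpos
    omega
  · refine ⟨Set.univ, isOpen_univ, ?_, ?_⟩
    · obtain ⟨x, hx⟩ := hZ.1.1
      exact ⟨x, hx, trivial⟩
    · intro f hf
      obtain ⟨b2, c2, h1, h2⟩ := exists_chart_of_field f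
      have h3 : chartι k (Idx.single b2) (zp c2) ∈ Z := by
        refine (hf ?_).1
        rw [h1]
        exact (mem_range_mor_iff c2 _).2 rfl
      have h4 := hpts b2 c2 h3
      unfold HilbertScheme.idealOf
      rw [h2]
      exact h4
  · refine lt_of_le_of_lt ?_ hdim
    exact_mod_cast hNd

/-- Let `k` be an algebraically closed field and `n ≥ 3`. There are infinitely many elementary
components of the Hilbert schemes of `r` points of affine `n`-space, counted over all `r ≥ 1`; in
fact, for every `N` there are infinitely many of dimension larger than `N * r`. -/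
theorem result (k : Type u) [Field k] [IsAlgClosed k] (n : ℕ) (hn : 3 ≤ n) :
    ∃ 𝓗 : ∀ r : ℕ, HilbertScheme k (MvPolynomial (Fin n) k) r, ∀ N : ℕ,
      {p : (r : ℕ) × Set (𝓗 r).H | 1 ≤ p.1 ∧ p.2 ∈ irreducibleComponents (𝓗 p.1).H ∧
        IsElementary (𝓗 p.1) p.2 ∧
        ((N * p.1 : ℕ) : WithBot ℕ∞) < topologicalKrullDim p.2}.Infinite := by
  refine ⟨fun r => hilb k (MvPolynomial (Fin n) k) r, fun N hfin => ?_⟩
  obtain ⟨R, hR⟩ := (hfin.image (fun p => p.1)).bddAbove
  obtain ⟨r, hr, Z, hZ, hel, hdim⟩ := exists_elementary k n hn N R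
  have h1 : r ≤ R := hR ⟨⟨r, Z⟩, ⟨(Nat.succ_le_of_lt (Nat.zero_lt_of_lt hr) : 1 ≤ r), hZ, hel, hdim⟩, rfl⟩
  omega

end Pool.Agent.Results.MP_5ec99c_ag.InfinitelyMany
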